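import Pool.Agent.H27.QH

namespace Pool.Agent.Results.MP_9fe52c_nt.Full
open Finset Polynomial Pool.Agent.H27.QC Pool.Agent.H27.QC.Loc Pool.Agent.H27.QD
open Pool.Agent.H27.QF Pool.Agent.H27.QH

/-- the shifted factorial `(a; b)_k` -/
def poch {K : Type*} [Field K] (a b : K) (k : ℕ) : K := ∏ i ∈ range k, (1 - a * b ^ i)

/-- the `q`-integer `[m]` -/
def qint {K : Type*} [Field K] (q : K) (m : ℕ) : K := (1 - q ^ m) / (1 - q)

/-- `S_p(q)` -/
def S {K : Type*} [Field K] (q : K) (p : ℕ) : K := ∑ j ∈ range p,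
  qint q (2 * (p + 1) * j + 1)
    * (poch q (q ^ (p + 1)) j / poch (q ^ (p + 1)) (q ^ (p + 1)) j) ^ (2 * (p + 1))
      * q ^ ((p ^ 2 - 1) * j)

/-- `c_p` -/
def c (p : ℕ) : ℚ := p * (p - 1) * (p + 1) ^ 2 * (2 * p + 1) / 72

/-- the polynomial `[p] = 1 + q + ⋯ + q ^ (p - 1)` -/
noncomputable def br (p : ℕ) : ℚ[X] := ∑ i ∈ range p, X ^ i

/-- congruence modulo a polynomial `f` -/
def Cong (f : ℚ[X]) (A B : RatFunc ℚ) : Prop := ∃ P Q : ℚ[X], IsCoprime Q f ∧ f ∣ P ∧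
  A - B = algebraMap _ _ P / algebraMap _ _ Q

variable {K : Type*} [Field K] [CharZero K] {L : Loc K}

theorem main1 (hn : 1 < L.n) : L.E 5 (S L.q L.n) (-(c L.n : K) * L.q * (1 - L.q) ^ 2
    * qint L.q L.n ^ 4 * ∑ i ∈ range L.n, (L.q ^ L.n) ^ i) := by
  have q0 := L.q0
  have hU : L.U (1 - L.q) := by
    simpa using U.sub (L := L) (j := 1) (by rw [Nat.dvd_one]; omega)
  obtain ⟨κ, h1, h2⟩ := gen (L := L) (P := L.q ^ (L.n + 1)) (d := L.n + 1) (by omega) (U.q.pow _)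
    (by ring) fun j h0 hj => by
      rw [← pow_mul]
      refine U.sub fun h => ?_
      have := Nat.le_of_dvd h0 ((show Nat.Coprime L.n (L.n + 1) by simp).dvd_of_dvd_mul_left h)
      omega
  have h3 : L.E 1 κ (2 * (1 - L.q) / L.q) := by
    refine (h1.add ((N3.qn.nr.inv.near).smul (div_mem' U2.1 U.q))).of_sub ?_
    field_simp; ring
  have uκ := h3.unit ((U2.mul hU).div U.q)
  have h4 : L.E 1 (∑ i ∈ range L.n, (L.q ^ L.n) ^ i) L.n := by
    simpa using E.sum (range L.n) fun i _ => (Nr.qn (L := L) i).near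
  have h5 := h3.mul h4 ((U2.mul hU).div U.q).1 (L.nat_mem _)
  have e : S L.q L.n = (∑ j ∈ range L.n, (1 - L.q ^ (L.n + 1) * ((L.q ^ (L.n + 1)) ^ j) ^ 2
      / L.q ^ L.n) / (L.q ^ (L.n + 1)) ^ j * Pool.Agent.H27.QH.uu (L.q ^ (L.n + 1)) (L.q ^ L.n)
        (L.n + 1) j) / (1 - L.q) := by
    rw [S, sum_div]
    refine sum_congr rfl fun j _ => ?_
    have e1 : poch L.q (L.q ^ (L.n + 1)) j / poch (L.q ^ (L.n + 1)) (L.q ^ (L.n + 1)) j
        = ∏ i ∈ range j, (1 - (L.q ^ (L.n + 1)) ^ (i + 1) / L.q ^ L.n)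
          / (1 - (L.q ^ (L.n + 1)) ^ (i + 1)) := by
      rw [poch, poch, ← prod_div_distrib]
      refine prod_congr rfl fun i _ => ?_
      congr 2
      · field_simp; ring
      · ring
    rw [e1, qint, Pool.Agent.H27.QH.uu]
    simp only [mul_pow, prod_mul_distrib, prod_pow, prod_const, card_range]
    generalize ∏ i ∈ range j, (1 - (L.q ^ (L.n + 1)) ^ (i + 1) / L.q ^ L.n)
      / (1 - (L.q ^ (L.n + 1)) ^ (i + 1)) = A
    obtain ⟨N, hN⟩ : ∃ N, L.n = N + 1 := ⟨L.n - 1, by omega⟩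
    rw [hN, show (N + 1) ^ 2 - 1 = N * (N + 2) from Nat.sub_eq_of_eq_add (by ring)]
    field_simp
    ring
  refine E.cancel (((h2.smul hU.2.1).add (h5.e_mul.e_mul.e_mul.e_mul.smul
    (div_mem' (mul_mem (L.rat (c L.n)) L.hq) (hU.pow 2)))).of_sub ?_) uκ
  have := hU.2.2
  rw [e, qint, c, show 1 - L.q ^ L.n = -L.e by unfold Loc.e; ring]
  generalize ∑ j ∈ range L.n, (1 - L.q ^ (L.n + 1) * ((L.q ^ (L.n + 1)) ^ j) ^ 2
      / L.q ^ L.n) / (L.q ^ (L.n + 1)) ^ j * Pool.Agent.H27.QH.uu (L.q ^ (L.n + 1)) (L.q ^ L.n)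
        (L.n + 1) j = T
  generalize ∑ i ∈ range L.n, (L.q ^ L.n) ^ i = T'
  push_cast
  field_simp
  ring

theorem sym (P : K) (hP : P ≠ 0) (N j : ℕ) : ∀ k, j + k = N → poch (P ^ N)⁻¹ P j ^ 2
    * poch P P k ^ 2 * P ^ (2 * j * k + j * (j + 1)) = poch P P N ^ 2 := by
  induction j with
  | zero => rintro k rfl; simp [poch]
  | succ j ih =>
    intro k hk
    rw [← ih (k + 1) (by omega), poch, prod_range_succ, ← poch, poch, poch, poch, prod_range_succ,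
      ← poch, ← poch]
    generalize poch (P ^ N)⁻¹ P j = A
    rw [← hk]
    field_simp
    ring

theorem main2 {N : ℕ} (hn : L.n = (N + 1) ^ 2) (hN : 0 < N) : L.E 1 (S L.q (N + 1)) 0 := by
  have q0 := L.q0
  have h1 : N + 1 < L.n := by rw [hn]; nlinarith
  have hU : L.U (1 - L.q) := by
    simpa using U.sub (L := L) (j := 1) (by rw [Nat.dvd_one]; omega)
  have uP := U.q.pow (L := L) (N + 1 + 1)
  have hP : ∀ k, k ≤ N → L.U (poch (L.q ^ (N + 1 + 1)) (L.q ^ (N + 1 + 1)) k) := fun k hk =>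
    U.prod _ _ fun i hi => by
      rw [← pow_succ', ← pow_mul]
      refine U.sub fun h => ?_
      have := Nat.le_of_dvd (by omega) ((show Nat.Coprime L.n (N + 1 + 1) by
        rw [hn]; exact Nat.Coprime.pow_left _ (by simp)).dvd_of_dvd_mul_left h)
      have := mem_range.mp hi
      omega
  have e0 : L.q = L.q ^ L.n * ((L.q ^ (N + 1 + 1)) ^ N)⁻¹ := by rw [hn]; field_simp; ring
  have e1 : (L.q ^ L.n) ^ (N + 1 + 1) = (L.q ^ (N + 1 + 1)) ^ ((N + 1) ^ 2) := by rw [hn]; ring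
  have Q := (N3.qn (L := L)).nr
  have W := Nr.qn (L := L) (N + 1 + 1)
  rw [e1] at W
  have e2 : ∀ j, L.q ^ (((N + 1) ^ 2 - 1) * j) = (L.q ^ (N + 1 + 1)) ^ (N * j) := fun j => by
    rw [show (N + 1) ^ 2 - 1 = N * (N + 2) from Nat.sub_eq_of_eq_add (by ring)]; ring
  have e3 : ∀ j, L.q ^ (2 * (N + 1 + 1) * j + 1) = L.q * (L.q ^ (N + 1 + 1)) ^ (2 * j) :=
    fun j => by ring
  simp only [S, qint, e2, e3]
  generalize L.q ^ (N + 1 + 1) = P at *
  have P0 := uP.2.2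
  have ua := (uP.pow N).inv
  let s : ℕ → K := fun j => (1 - (P ^ N)⁻¹ * P ^ (2 * j)) / (1 - L.q)
    * (poch (P ^ N)⁻¹ P j / poch P P j) ^ (2 * (N + 1 + 1)) * P ^ (N * j) * (P ^ ((N + 1) ^ 2)) ^ j
  have k1 : ∑ j ∈ range (N + 1), s j = -∑ j ∈ range (N + 1), s j := by
    rw [← sum_neg_distrib, ← sum_range_reflect s]
    refine sum_congr rfl fun j hj => ?_
    obtain ⟨k, hk⟩ : ∃ k, j + k = N := ⟨N - j, by have := mem_range.mp hj; omega⟩
    have a1 := sym P P0 N j k hk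
    have a2 := sym P P0 N k j (by omega)
    have b1 := (hP j (by omega)).2.2
    have b2 := (hP k (by omega)).2.2
    have a3 : (poch (P ^ N)⁻¹ P k / poch P P k) ^ 2
        = (poch (P ^ N)⁻¹ P j / poch P P j) ^ 2 * (P ^ (j * (j + 1)) / P ^ (k * (k + 1))) := by
      have b3 : P ^ (2 * j * k) ≠ 0 := pow_ne_zero _ P0
      generalize (P ^ N)⁻¹ = z at *
      field_simp
      apply mul_left_cancel₀ b3
      linear_combination a2 - a1
    simp only [s]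
    rw [show N + 1 - 1 - j = k by omega, pow_mul _ 2 (N + 1 + 1), pow_mul _ 2 (N + 1 + 1), a3,
      mul_pow, div_pow (P ^ _)]
    generalize ((poch (P ^ N)⁻¹ P j / poch P P j) ^ 2) ^ (N + 1 + 1) = A
    rw [← hk]
    field_simp
    ring
  have k2 : ∑ j ∈ range (N + 1), s j = 0 := by linear_combination k1 / 2
  rw [← k2]
  refine E.sum _ fun j hj => ?_
  have hj' := mem_range.mp hj
  have t1 : L.E 1 L.q (P ^ N)⁻¹ := (Q.near.smul ua.1).of_sub (by linear_combination e0)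
  have m1 : poch (P ^ N)⁻¹ P j ∈ L.O :=
    prod_mem fun i _ => sub_mem (one_mem _) (mul_mem ua.1 (pow_mem uP.1 i))
  have t2 : L.E 1 (poch L.q P j) (poch (P ^ N)⁻¹ P j) :=
    E.prod _ (fun i _ => (t1.smul (pow_mem uP.1 i)).neg.of_sub (by ring))
      fun i _ => sub_mem (one_mem _) (mul_mem ua.1 (pow_mem uP.1 i))
  have m2 := div_mem' m1 (hP j (by omega))
  have m3 := div_mem' (sub_mem (one_mem _) (mul_mem ua.1 (pow_mem uP.1 (2 * j)))) hU
  have t3 : L.E 1 ((1 - L.q * P ^ (2 * j)) / (1 - L.q)) ((1 - (P ^ N)⁻¹ * P ^ (2 * j)) / (1 - L.q)) :=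
    (t1.smul (div_mem' (pow_mem uP.1 (2 * j)) hU)).neg.of_sub (by ring)
  exact ((((t3.mul ((t2.div (E.refl _) m1 (hP j (by omega))).pow m2 (2 * (N + 1 + 1))) m3
    (pow_mem m2 _)).smul (pow_mem uP.1 (N * j))).sub ((W.pow j).near.smul (mul_mem (mul_mem m3
      (pow_mem m2 (2 * (N + 1 + 1)))) (pow_mem uP.1 (N * j)))))).of_sub (by simp only [s]; ring)

theorem result (p : ℕ) (hp : p.Prime) : Cong (cyclotomic (p ^ 2) ℚ * br p ^ 5) (S RatFunc.X p)
    (algebraMap ℚ[X] _ (-C (c p) * X * (1 - X) ^ 2 * br p ^ 4 * cyclotomic (p ^ 2) ℚ)) := by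
  haveI := Fact.mk hp
  have hb : br p = cyclotomic p ℚ := (cyclotomic_prime ℚ p).symm
  have h0 : ∀ j, 0 < j → (1 - RatFunc.X ^ j : RatFunc ℚ) ≠ 0 := (cycL 1 one_pos).ne
  have e1 : algebraMap ℚ[X] (RatFunc ℚ) (br p) = qint RatFunc.X p := by
    rw [qint, eq_div_iff (by simpa using h0 1 one_pos), mul_comm, br]
    simpa using mul_neg_geom_sum (RatFunc.X : RatFunc ℚ) p
  have e2 : algebraMap ℚ[X] (RatFunc ℚ) (cyclotomic (p ^ 2) ℚ)
      = ∑ i ∈ range p, (RatFunc.X ^ p) ^ i := by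
    rw [cyclotomic_prime_pow_eq_geom_sum hp]; simp
  have e3 : algebraMap ℚ[X] (RatFunc ℚ) (-C (c p) * X * (1 - X) ^ 2 * br p ^ 4
      * cyclotomic (p ^ 2) ℚ) = -(c p : RatFunc ℚ) * RatFunc.X * (1 - RatFunc.X) ^ 2
        * qint RatFunc.X p ^ 4 * ∑ i ∈ range p, (RatFunc.X ^ p) ^ i := by
    rw [← e1, ← e2, ← eq_ratCast (RatFunc.C : ℚ →+* RatFunc ℚ)]
    simp
  have h1 := cyc_out' hp.pos (main1 (L := cycL p hp.pos) hp.one_lt)
  have p2 : 0 < p ^ 2 := pow_pos hp.pos 2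
  have h2 : (cycL (p ^ 2) p2).E 1 (S RatFunc.X p) (algebraMap ℚ[X] _ (-C (c p) * X * (1 - X) ^ 2
      * br p ^ 4 * cyclotomic (p ^ 2) ℚ)) := by
    obtain ⟨N, rfl⟩ : ∃ N, p = N + 1 := ⟨p - 1, by have := hp.pos; omega⟩
    refine (main2 (L := cycL _ p2) rfl (by have := hp.one_lt; omega)).trans (E.symm ?_)
    have u := U.sub (L := cycL _ p2) (j := N + 1) fun h => by
      have := Nat.le_of_dvd hp.pos h
      have := hp.one_lt
      change (N + 1) ^ 2 ≤ _ at *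
      nlinarith
    have hm : ∀ A : ℚ[X], algebraMap ℚ[X] (RatFunc ℚ) A ∈ (cycL _ p2).O := fun A =>
      ⟨A, 1, isCoprime_one_left, by simp⟩
    refine (E.e_zero (mul_mem (hm (C (c (N + 1)) * X * (1 - X) ^ 2 * br (N + 1) ^ 4))
      u.2.1)).of_sub ?_
    have := mul_neg_geom_sum (RatFunc.X ^ (N + 1) : RatFunc ℚ) (N + 1)
    rw [map_mul _ _ (cyclotomic _ _), e2, (eq_inv_mul_iff_mul_eq₀ (h0 _ hp.pos)).mpr this]
    simp only [Loc.e, cycL, neg_mul, map_neg]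
    ring
  have h3 := cyc_out' p2 h2
  rw [pow_one] at h3
  change cyclotomic p ℚ ^ 5 ∣ (S RatFunc.X p - -(c p : RatFunc ℚ) * RatFunc.X * (1 - RatFunc.X) ^ 2
    * qint RatFunc.X p ^ 4 * ∑ i ∈ range p, (RatFunc.X ^ p) ^ i).num ∧ IsCoprime
      (S RatFunc.X p - -(c p : RatFunc ℚ) * RatFunc.X * (1 - RatFunc.X) ^ 2
        * qint RatFunc.X p ^ 4 * ∑ i ∈ range p, (RatFunc.X ^ p) ^ i).denom _ at h1
  rw [← e3] at h1
  refine ⟨_, _, ?_, ?_, (RatFunc.num_div_denom _).symm⟩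
  · nth_rewrite 2 [hb]
    exact h3.2.mul_right h1.2
  · nth_rewrite 1 [hb]
    exact (cyclotomic.isCoprime_rat (by have := hp.one_lt; nlinarith)).pow_right.mul_dvd h3.1 h1.1

end Pool.Agent.Results.MP_9fe52c_nt.Full
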